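import Mathlib
import Pool.Agent.Y205.AV.Large
import Pool.Agent.Y939.NC.Reg
import Pool.Agent.TH885.NW.Exp2
import Pool.Agent.H932R3.NearFinal

set_option autoImplicit false

/-!
# Classes comparable with a regular vector of multiplicities
-/

namespace Pool.Agent.V11263.SH

open MvPolynomial Pool.Agent.TH167.SHDefs
open Pool.Agent.Y536.SH (Standard)
open Pool.Agent.Y205.AV (Large)
open Pool.Agent.Y939.NC (Good Regular)

/-- The windows for arbitrary multiplicities at `k` points: Nagata's inequality fails for `(d; v)`,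
or fails to the second order (`√k (d + 11 / 6) + 9 / 8 < ∑ v + k / 2`, if `∑ v` is at least
`k max (1, k / 2 - 11 √k / 6 + 1)`, rounded up), or the degree is large compared to
`∑ max (v i) b`, where `v ≤ b + 1`. -/
def Window (d : ℕ) {k : ℕ} (v : Fin k → ℕ) : Prop :=
  √(k : ℝ) * d < ∑ i, (v i : ℝ) ∨
    ((∃ j : ℕ, 1 ≤ j ∧ (k : ℝ) / 2 - 11 / 6 * √(k : ℝ) + 1 ≤ j ∧ (k : ℝ) * j ≤ ∑ i, (v i : ℝ)) ∧
      √(k : ℝ) * (d + 11 / 6) + 9 / 8 < (∑ i, (v i : ℝ)) + k / 2) ∨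
    ∃ b : ℕ, (∀ i, v i ≤ b + 1) ∧
      ((k : ℝ) + ∑ i, ((max (v i) b : ℕ) : ℝ) < √(k : ℝ) * (d + 3) ∨
        (∑ i, ((max (v i) b : ℕ) : ℝ)) + k / 2 + √(k : ℝ) / 3 + 1 / 8 < √(k : ℝ) * (d + 3 / 2))

/-- Vectors of multiplicities on `k` points regular in degree `d`. -/
def RegularAt (N0 d : ℕ) {k : ℕ} (v : Fin k → ℕ) : Prop :=
  Regular N0 v ∨
  (10 ≤ k ∧ ∃ m : ℕ, 1 ≤ m ∧ (∀ i, v i = m ∨ v i = m + 1) ∧
    (((m + 1 : ℕ) : ℝ) ≤ k - 6 * √(k : ℝ) + 11 ∨ IsSquare k ∨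
      min (√(k : ℝ) - 3) (2 / 3 + 1 / (4 * √(k : ℝ))) <
        2 * (d : ℝ) + 3 - (√(k : ℝ) + 2 * (∑ i, (v i : ℝ)) / √(k : ℝ)) ∨
      2 * (d : ℝ) + 3 - (√(k : ℝ) + 2 * (∑ i, (v i : ℝ)) / √(k : ℝ)) <
        - min (√(k : ℝ) - 3) (2 / 3 + 9 / (4 * √(k : ℝ))))) ∨
  (10 ≤ k ∧ Window d v)

/-- The class `(d; w)` is comparable, on some of the points, with a vector regular in degree `d`. -/
def Comparable (N0 d : ℕ) {n : ℕ} (w : Fin n → ℕ) : Prop :=
  ∃ (k : ℕ) (e : Fin k ↪ Fin n) (v : Fin k → ℕ), RegularAt N0 d v ∧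
    (((∀ j, v j ≤ w (e j)) ∧ (d + 2).choose 2 ≤ ∑ j, (v j + 1).choose 2) ∨
      ((∀ j, w (e j) ≤ v j) ∧ (∀ i, i ∉ Set.range e → w i ≤ 1) ∧
        ((∀ j, w (e j) = v j) ∨ ∑ j, (v j + 1).choose 2 ≤ (d + 2).choose 2)))

theorem regularAt_exp {N0 : ℕ} (hN0 : Pool.Agent.Y939.NC.RegExp N0) {d k : ℕ} {v : Fin k → ℕ}
    (hv : RegularAt N0 d v) (K : Type) [Field K] [CharZero K] :
    ∃ F : MvPolynomial (Fin k × Fin 2) ℚ, F ≠ 0 ∧ ∀ P : Fin k → Fin 2 → K,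
      aeval (fun ij : Fin k × Fin 2 => P ij.1 ij.2) F ≠ 0 →
        Pool.Agent.H932R3.ExpDim K v P d := by
  rcases hv with hv | ⟨hk, m, hm, hv, h⟩ | ⟨hk, h⟩
  · obtain ⟨F, hF, hF'⟩ := hN0 k v hv K
    exact ⟨F, hF, fun P hP => hF' P hP d⟩
  · have hall : (((m + 1 : ℕ) : ℝ) ≤ k - 6 * Real.sqrt k + 11 ∨
        ∃ δ κ : ℕ, 2 ≤ δ ∧ k = δ ^ 2 + 2 * κ ∧
          (κ = 0 ∨ ∑ i, v i * (v i + 1) < δ ^ 2 * (δ ^ 2 + 3) * (δ ^ 2 + 4))) →
        ∃ F : MvPolynomial (Fin k × Fin 2) ℚ, F ≠ 0 ∧ ∀ P : Fin k → Fin 2 → K,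
          aeval (fun ij : Fin k × Fin 2 => P ij.1 ij.2) F ≠ 0 →
            Pool.Agent.H932R3.ExpDim K v P d := by
      intro h'
      obtain ⟨F, hF, hF'⟩ := Pool.Agent.H932R3.near_points (L := K) hk hm hv
        (Pool.Agent.H932R3.near_cond (by omega) hv h')
      exact ⟨F, hF, fun P hP => hF' P hP d⟩
    rcases h with h | ⟨δ, hδ⟩ | h
    · exact hall (Or.inl h)
    · refine hall (Or.inr ⟨δ, 0, ?_, by rw [hδ]; ring, Or.inl rfl⟩)
      by_contra hlt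
      have : δ ≤ 1 := by omega
      have : δ * δ ≤ 1 := by nlinarith
      omega
    · obtain ⟨F, hF, hF'⟩ := Pool.Agent.TH885.NW.exp_near2 (L := K) hk hm hv
      exact ⟨F, hF, fun P hP => hF' P hP d h⟩
  · obtain ⟨F, hF, hF'⟩ := Pool.Agent.TH885.NW.exp_cut2 hk v
    exact ⟨F, hF, fun P hP => hF' P hP d h⟩

/-- Comparable classes have the expected dimension at generic points. -/
theorem comparable_exp {N0 : ℕ} (hN0 : Pool.Agent.Y939.NC.RegExp N0) {n d : ℕ} {w : Fin n → ℕ}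
    (h : Comparable N0 d w) {K : Type} [Field K] [CharZero K] {P : Fin n → Fin 2 → K}
    (hP : AlgebraicIndependent ℚ (fun ij : Fin n × Fin 2 => P ij.1 ij.2)) :
    Pool.Agent.H932R3.ExpDim K w P d := by
  obtain ⟨k, e, v, hr, h⟩ := h
  obtain ⟨F, hF, hF'⟩ := regularAt_exp hN0 hr K
  rcases h with ⟨hle, h2⟩ | ⟨hle, h1, h2⟩
  · have h0 := Pool.Agent.TH885.CO.evP_ne (P := fun j => P (e j))
      (Pool.Agent.TH885.CO.alg_emb e hP) hF
    rw [Pool.Agent.TH885.CO.evP_apply] at h0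
    have h3 : Module.finrank K ↥(Pool.Agent.H248R5.forms v (fun j => P (e j)) d) =
        (d + 2).choose 2 - ∑ j, (v j + 1).choose 2 := hF' (fun j => P (e j)) h0
    rw [Nat.sub_eq_zero_of_le h2] at h3
    have hfin : Module.Finite K ↥(Pool.Agent.H248R5.forms v (fun j => P (e j)) d) :=
      Pool.Agent.Y536.SH.forms_fin _ _ _
    have h4 := Submodule.finrank_eq_zero.1 h3
    have h5 : Pool.Agent.H248R5.forms (fun j => w (e j)) (fun j => P (e j)) d ≤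
        Pool.Agent.H248R5.forms v (fun j => P (e j)) d := by
      intro G hG
      unfold Pool.Agent.H248R5.forms at hG ⊢
      rw [Submodule.mem_inf, Submodule.restrictScalars_mem, Ideal.mem_iInf] at hG ⊢
      exact ⟨hG.1, fun j => Ideal.pow_le_pow_right (hle j) (hG.2 j)⟩
    have h6 : Pool.Agent.H248R5.forms w P d = ⊥ := by
      rw [eq_bot_iff, ← h4]
      exact (Pool.Agent.Y536.SH.forms_sub e w P d).trans h5
    refine Pool.Agent.Y536.SH.exp_of_bot h6 (h2.trans ?_)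
    calc ∑ j, (v j + 1).choose 2 ≤ ∑ j, (w (e j) + 1).choose 2 :=
          Finset.sum_le_sum fun j _ => Nat.choose_le_choose 2 (by have := hle j; omega)
      _ ≤ ∑ i, (w i + 1).choose 2 := by
          rw [← Finset.sum_map Finset.univ e fun i => (w i + 1).choose 2]
          exact Finset.sum_le_sum_of_subset (Finset.subset_univ _)
  · have h3 := Pool.Agent.TH885.CO.exp_plus e (w := w) (d := d)
      (fun i hi => h1 i fun ⟨a, ha⟩ => hi (Finset.mem_map.2 ⟨a, Finset.mem_univ _, ha⟩))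
      ⟨F, hF, fun Q hQ => by
        rcases h2 with h2 | h2
        · have e1 : (fun j => w (e j)) = v := funext h2
          rw [e1]
          exact hF' Q hQ
        · exact Pool.Agent.TH442.NF.exp_mono (hF' Q hQ) h2 hle⟩ hP
    have h4 : Module.finrank K ↥(Pool.Agent.TH167.SHDefs.sys P d w) =
        (d + 2).choose 2 - ∑ j, (w j + 1).choose 2 := by
      rw [Pool.Agent.TH885.CO.sys_eq]
      exact h3
    exact h4

/-- Large, good or comparable. -/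
def Known (N0 d : ℕ) {n : ℕ} (w : Fin n → ℕ) : Prop :=
  Large d w ∨ Good N0 d w ∨ Comparable N0 d w

theorem known_exp {N0 : ℕ} (hN0 : Pool.Agent.Y939.NC.RegExp N0) {n d : ℕ} {w : Fin n → ℕ}
    (hn : 4 ≤ n) (hs : Standard d w) (h : Known N0 d w) {K : Type} [Field K] [CharZero K]
    {P : Fin n → Fin 2 → K}
    (hP : AlgebraicIndependent ℚ (fun ij : Fin n × Fin 2 => P ij.1 ij.2)) :
    Pool.Agent.H932R3.ExpDim K w P d := by
  rcases h with h | h | h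
  · exact Pool.Agent.Y205.AV.large_exp h hP
  · exact Pool.Agent.Y939.NC.good_exp hN0 hn hs h hP
  · exact comparable_exp hN0 h hP

end Pool.Agent.V11263.SH
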